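import Pool.Agent.R685.SJ.Main
import Pool.Agent.R685.SJ.Jord
import Pool.Agent.R685.SJ.Nz
import Pool.Agent.R685.SJ.Pig
import Pool.Agent.R685.SJ.Evj
import Pool.Agent.R685.SJ.Rank
import Pool.Agent.R685.SJ.Det
import Pool.Agent.R685.SJ.Supa
import Pool.Agent.R685.SJ.Supb
import Pool.Agent.R685.SJ.Supc
import Pool.Agent.R685.SJ.Gen
import Pool.Agent.R685.SJ.Psi
import Pool.Agent.R685.SJ.Word
import Pool.Agent.R685.SJ.Big
import Pool.Agent.R685.SJ.Star

set_option autoImplicit false

/-!
`Jord` has a subvariety of infinite basic superrank.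
-/

namespace Pool.Agent.Results.MP_a40872_al.JordInfiniteSuperrank

open Pool.Agent.H163R3 Pool.Agent.R685 Pool.Agent.R685.SJ

universe u

/-- Over every field of characteristic `0`: the variety defined by all identities of the algebra
`JR F` (the Jordan algebra of the standard bilinear form on a space of infinite dimension)
consists of Jordan algebras, and it is not generated by the Grassmann envelope of a finitely
generated superalgebra; and the Grassmann algebra exists. -/
theorem result (F : Type u) [Field F] [CharZero F] :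
    (∀ (B : Type u) [NonUnitalNonAssocRing B] [Module F B] [IsScalarTower F B B]
      [SMulCommClass F B B], InVar F (IdJ F) B → InVar F (JordId F) B) ∧
    (∃ (G : Type u) (_ : Ring G) (_ : Algebra F G) (e : ℕ → G), IsGrassmann F e) ∧
    ∀ (G : Type u) [Ring G] [Algebra F G] (e : ℕ → G), IsGrassmann F e →
      ∀ m : ℕ, ¬ FinSuperrank F e m (IdJ F) :=
  ⟨fun B _ _ _ _ h => IdJ_jord t_JORD F B h, exists_grassmann F,
    fun _ _ _ _ he m => main t_NZ t_SUPA t_SUPB t_SUPC t_GEN
      (t_STAR t_PSI t_WORD t_BIG (t_DET t_PIG t_EVJ t_RANK)) F _ _ he m⟩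

end Pool.Agent.Results.MP_a40872_al.JordInfiniteSuperrank
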