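import Pool.Agent.R685.LieSup3

set_option autoImplicit false

/-!
`Malc` has a subvariety of infinite basic superrank.
-/

namespace Pool.Agent.Results.MP_a40872_al.MalcInfiniteSuperrank

open Pool.Agent.H163R3 Pool.Agent.R685

universe u

/-- the defining identities of Malcev algebras: `x² = 0` and
`(xy)(xz) = ((xy)z)x + ((yz)x)x + ((zx)x)y` -/
def MalcId (F : Type u) [Field F] : Set (Fr F) :=
  {X F 0 * X F 0,
    (X F 0 * X F 1) * (X F 0 * X F 2) - (((X F 0 * X F 1) * X F 2) * X F 0
      + ((X F 1 * X F 2) * X F 0) * X F 0 + ((X F 2 * X F 0) * X F 0) * X F 1)}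

theorem V1_malcId (F : Type u) [Field F] (B : Type u) [NonUnitalNonAssocRing B] [Module F B]
    [IsScalarTower F B B] [SMulCommClass F B B] (h : InVar F (V1 F) B) :
    InVar F (MalcId F) B := by
  have hsq : ∀ x : B, x * x = 0 := by
    intro x
    have := h _ (show X F 0 * X F 0 ∈ V1 F by unfold V1; simp)
      (FreeNonUnitalNonAssocAlgebra.lift F fun _ => x)
    simpa [X] using this
  have hac : ∀ x y : B, x * y = - (y * x) := by
    intro x y
    have h1 := hsq (x + y)
    rw [add_mul, mul_add, mul_add, hsq, hsq, zero_add, add_zero] at h1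
    exact eq_neg_of_add_eq_zero_left h1
  have hj : ∀ x y z : B, (x * y) * z + (y * z) * x + (z * x) * y = 0 := by
    intro x y z
    have := h _ (show (X F 0 * X F 1) * X F 2 + (X F 1 * X F 2) * X F 0
      + (X F 2 * X F 0) * X F 1 ∈ V1 F by unfold V1; simp)
      (FreeNonUnitalNonAssocAlgebra.lift F fun i => if i = 0 then x else if i = 1 then y else z)
    simpa [X] using this
  intro f hf φ
  rcases hf with hf | hf
  · rw [hf, map_mul]; exact hsq _
  · rw [Set.mem_singleton_iff] at hf
    rw [hf]
    simp only [map_sub, map_add, map_mul]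
    generalize φ (X F 0) = x
    generalize φ (X F 1) = y
    generalize φ (X F 2) = z
    have e1 : ((x * y) * z) * x + ((y * z) * x) * x = - (((z * x) * y) * x) := by
      rw [← add_mul, ← neg_mul]
      congr 1
      exact eq_neg_of_add_eq_zero_left (hj x y z)
    have e2 := hj (z * x) x y
    have e3 : (x * y) * (z * x) = - ((x * y) * (x * z)) := by
      rw [hac z x, mul_neg]
    have e4 : (y * (z * x)) * x = - (((z * x) * y) * x) := by
      rw [hac y (z * x), neg_mul]
    rw [e1]
    rw [e3, e4] at e2
    have e5 : ((z * x) * x) * y = (x * y) * (x * z) + ((z * x) * y) * x := by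
      have := e2
      calc ((z * x) * x) * y
          = (((z * x) * x) * y + -((x * y) * (x * z)) + -(((z * x) * y) * x))
            + ((x * y) * (x * z) + ((z * x) * y) * x) := by abel
        _ = _ := by rw [this, zero_add]
    rw [e5]; abel

/-- Over every field of characteristic `0`: the variety `V1` of all Lie algebras whose third lower
central power has zero product consists of Malcev algebras and is not generated by the
Grassmann envelope of a finitely generated superalgebra; and the Grassmann algebra exists. -/
theorem result (F : Type u) [Field F] [CharZero F] :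
    (∀ (B : Type u) [NonUnitalNonAssocRing B] [Module F B] [IsScalarTower F B B]
      [SMulCommClass F B B], InVar F (V1 F) B → InVar F (MalcId F) B) ∧
    (∃ (G : Type u) (_ : Ring G) (_ : Algebra F G) (e : ℕ → G), IsGrassmann F e) ∧
    ∀ (G : Type u) [Ring G] [Algebra F G] (e : ℕ → G), IsGrassmann F e →
      ∀ m : ℕ, ¬ FinSuperrank F e m (V1 F) :=
  ⟨fun B _ _ _ _ h => V1_malcId F B h, exists_grassmann F,
    fun _ _ _ _ he m => not_finSuperrank he m⟩

end Pool.Agent.Results.MP_a40872_al.MalcInfiniteSuperrank
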